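import Pool.Agent.Q197.MG.Fin

/-!
# Random sequences of finite abelian `p`-groups: exact entropy budgets of the Cohen-Lenstra predictions (helper197)

The `p`-parts of the class groups of the imaginary quadratic fields, in the order of the discriminants, are replaced by
random finite abelian `p`-groups with an arbitrary joint law.  `G 0, G 1, …` is an enumeration of the finite abelian
`p`-groups up to isomorphism (`IsEnum p G`; such enumerations exist), a random sequence is a sequence of random indices
`g 1, g 2, …`, and the group number `n` is `G (g n)`.  The reference model is: independent groups with the Cohen-Lenstra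
law `clG G`, `P(G i)` proportional to `1 / #Aut (G i)`.  `relEntropy (clG G) μ g k` is the relative entropy of the law of
the groups number `2^k, …, 2^(k+1) - 1` with respect to the model.

If the relative entropies are at most `d k` and the sum of `d k / k²` converges, then almost surely, for every finite
abelian `p`-group `H`, the average number of surjections onto `H` tends to one.  If the sum diverges, there is a random
sequence with relative entropies at most `d k` for which almost surely all these averages (`H ≠ 0`) are unbounded.  For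
the law `P(H) = c / #Aut H` the condition is that the sum of `d k / 2^k` converges.

Idea of the proof.  Let `M = #Hom(H, H)`.  The moments `E #Hom(G, H)^(2 t)` are at most `C M^(t²)` (induction on `H` with
the groups `p G`, `p H` and counting subgroups of lattices), so that `P(#Sur(G, H) > e^x) ≤ C exp (-x² / log M)`, and the
group `H^t` attains this.  Hence the average over `N` groups deviates from one with probability
`exp (-(1 + o(1)) (log N)² / log M)` in the model; this is about `exp (-k² / C)` for the block number `k`, and an event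
of probability `exp (-u)` in the model has probability at most `(1 + D) / u` under a law of relative entropy `D`.
Conversely the model is mixed with the model conditioned on the event that one group of the block number `k` is
`(ℤ/p^e)^k`, where `e = e_k` tends to infinity so slowly that the sum of `d k / (e_k k²)` still diverges.
-/

set_option autoImplicit false

namespace Pool.Agent.Results.MP_0f260b_nt.BudgetOfAllMoments

open MeasureTheory Filter Pool.Agent.Q197.MG
open scoped Topology

/-- **Exact entropy budgets of all moments and of the Cohen-Lenstra law.** -/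
theorem result (p : ℕ) (hp : p.Prime) (h3 : 3 ≤ p) :
    -- there are enumerations of the finite abelian `p`-groups
    (∃ (G : ℕ → Type) (_ : ∀ i, AddCommGroup (G i)), IsEnum p G) ∧
    ∀ (G : ℕ → Type) [∀ i, AddCommGroup (G i)], IsEnum p G → IsProbabilityMeasure (clG G) ∧
    ∃ c : ℝ, 0 < c ∧
    -- the law of the model
    (∀ (H : Type) [AddCommGroup H] (j : ℕ), Nonempty (H ≃+ G j) → (clG G).real {j} = c / naut H) ∧
    ∀ d : ℕ → ℝ, (∀ k, 0 ≤ d k) →
    -- (1) summable budget: all moments
    (Summable (fun k : ℕ => d k / (k : ℝ) ^ 2) →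
      ∀ (Ω : Type) [MeasurableSpace Ω] (μ : Measure Ω) [IsProbabilityMeasure μ] (g : ℕ → Ω → ℕ),
        (∀ n, Measurable (g n)) → (∀ᶠ k in atTop, relEntropy (clG G) μ g k ≤ ENNReal.ofReal (d k)) →
          ∀ᵐ ω ∂μ, ∀ (H : Type) [AddCommGroup H], IsP p H → Tendsto (avSur G H fun n => g n ω) atTop (𝓝 1)) ∧
    -- (2) otherwise all moments are unbounded for some random sequence
    (¬ Summable (fun k : ℕ => d k / (k : ℝ) ^ 2) →
      ∃ (Ω : Type) (_ : MeasurableSpace Ω) (μ : Measure Ω) (_ : IsProbabilityMeasure μ) (g : ℕ → Ω → ℕ),
        (∀ n, Measurable (g n)) ∧ (∀ k, relEntropy (clG G) μ g k ≤ ENNReal.ofReal (d k)) ∧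
          ∀ᵐ ω ∂μ, ∀ (H : Type) [AddCommGroup H], IsP p H → Nat.card H ≠ 1 → ∀ A : ℝ,
            ∃ᶠ N in atTop, A ≤ avSur G H (fun n => g n ω) N) ∧
    -- (3) the law
    (Summable (fun k : ℕ => d k / (2 : ℝ) ^ k) →
      ∀ (Ω : Type) [MeasurableSpace Ω] (μ : Measure Ω) [IsProbabilityMeasure μ] (g : ℕ → Ω → ℕ),
        (∀ n, Measurable (g n)) → (∀ᶠ k in atTop, relEntropy (clG G) μ g k ≤ ENNReal.ofReal (d k)) →
          ∀ᵐ ω ∂μ, ∀ (H : Type) [AddCommGroup H], IsP p H →
            Tendsto (share G H fun n => g n ω) atTop (𝓝 (c / naut H))) ∧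
    -- (4) sharp
    (¬ Summable (fun k : ℕ => d k / (2 : ℝ) ^ k) →
      ∃ (Ω : Type) (_ : MeasurableSpace Ω) (μ : Measure Ω) (_ : IsProbabilityMeasure μ) (g : ℕ → Ω → ℕ),
        (∀ n, Measurable (g n)) ∧ (∀ k, relEntropy (clG G) μ g k ≤ ENNReal.ofReal (d k)) ∧
          ∀ᵐ ω ∂μ, ∀ (H : Type) [AddCommGroup H], IsP p H →
            ¬ Tendsto (share G H fun n => g n ω) atTop (𝓝 (c / naut H))) := by
  have : Fact p.Prime := ⟨hp⟩
  refine ⟨exists_enum, fun G _ hG => ⟨clG_prob h3 hG, ?_⟩⟩
  obtain ⟨c, hc0, hc⟩ := law_value h3 hG
  exact ⟨c, hc0, hc, fun d hd => ⟨fun hs Ω _ μ _ g hg hD => all_moments h3 hG hd hs hg hD,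
    fun hs => moments_of_not_summable h3 hG hd hs, fun hs Ω _ μ _ g hg hD => all_law h3 hG hc hd hs hg hD,
    fun hs => all_law_fails h3 hG hc hd hs⟩⟩

end Pool.Agent.Results.MP_0f260b_nt.BudgetOfAllMoments
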