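import Pool.Agent.Q148.CG.All
import Pool.Agent.Q148.CG.Alg

set_option autoImplicit false

/-!
# Imaginary quadratic fields with an element of order `g` in almost all short intervals

For every `g ≥ 2`, every modulus `N` and every `η > 0` there is `K` such that for all but at most
`η X` of the natural numbers `x ≤ X` every residue class modulo `N` that contains a squarefree number
contains a squarefree `d` in `[x, x + K x ^ θ]`, `θ = max (1/3) (1/2 - 1/g)`, such that the class
group of `ℚ(√-d)` has an element of order `g`.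

Proof.  If `a ^ 2 + d b ^ 2 = m ^ g` with `m > 1` odd and prime to `a`, `d` squarefree and
`16 m ^ g < d ^ 2`, then the ideal generated by `m` and `a + b √-d` has order `g` in the class group.
Fix `b = 4 e`, a multiple of `N` and of all small primes, let `Q = b ^ 3` and `M ≡ 1` modulo `Q` with
`M ^ g` about `b ^ 2 x`.  Take `m = M + Q S j`, `j ∈ (T, 2 T]`, with `Q S T` about `M` and `T` about
`M ^ min (1, g/6)`, and `a` in a fixed residue class modulo `Q` such that `d = (m ^ g - a ^ 2) / b ^ 2`
is `≡ k` modulo `b`.  Then `d` is close to `x` when `a` is close to `√(m ^ g - b ^ 2 x)`.  A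
trigonometric minorant of degree `2 L` of the interval `‖y‖ < 1 / L`, `L` about `T`, summed over `j`,
has small variance in `x`: the nondiagonal terms are oscillatory integrals of differences of square
roots, estimated by the first and second derivative tests.  The pairs `(a, j)` for which `d` is not
squarefree or `a` is not prime to `m` have small density and are removed.
-/

namespace Pool.Agent.Results.MP_0f260b_nt.ElementsOfGivenOrder

open NumberField

/-- **Imaginary quadratic fields with an element of order `g` in almost all short intervals.**  For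
every `g ≥ 2`, `N ≥ 1` and `η > 0` there are `K` and `X₀` such that for all real `X ≥ X₀`, for all
but at most `η X` natural numbers `x ≤ X` the following holds: for every squarefree `k` there is a
squarefree `d ≡ k` modulo `N` in the interval `[x, x + K x ^ max (1/3) (1/2 - 1/g)]` such that the
class group of the imaginary quadratic field `ℚ(√-d)` has an element of order `g`. -/
theorem result (g N : ℕ) (hg : 2 ≤ g) (hN : 0 < N) (η : ℝ) (hη : 0 < η) :
    ∃ K X₀ : ℝ, ∀ X : ℝ, X₀ ≤ X →
      ({x : ℕ | (x : ℝ) ≤ X ∧ ¬ ∀ k : ℕ, Squarefree k →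
        ∃ d : ℕ, x ≤ d ∧ (d : ℝ) ≤ x + K * (x : ℝ) ^ (max (1 / 3) (1 / 2 - 1 / g) : ℝ) ∧
          Squarefree d ∧ d ≡ k [MOD N] ∧
          ∀ (F : Type) [Field F] [NumberField F], Module.finrank ℚ F = 2 →
            ∀ s : F, s ^ 2 = -(d : F) → ∃ c : ClassGroup (𝓞 F), orderOf c = g}.ncard : ℝ) ≤
        η * X := by
  obtain ⟨K, X₀, h⟩ := Pool.Agent.Q148.CG.all_classes g N hg hN η hη
  refine ⟨K, X₀, ?_⟩
  intro X hX
  refine le_trans ?_ (h X hX)
  have hfin : {x : ℕ | (x : ℝ) ≤ X ∧ ¬ ∀ k : ℕ, Squarefree k →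
      Pool.Agent.Q148.CG.PG g N k K x}.Finite := by
    apply (Set.finite_Iic ⌊X⌋₊).subset
    intro x hx
    exact Nat.le_floor hx.1
  have hsub : {x : ℕ | (x : ℝ) ≤ X ∧ ¬ ∀ k : ℕ, Squarefree k →
        ∃ d : ℕ, x ≤ d ∧ (d : ℝ) ≤ x + K * (x : ℝ) ^ (max (1 / 3) (1 / 2 - 1 / g) : ℝ) ∧
          Squarefree d ∧ d ≡ k [MOD N] ∧
          ∀ (F : Type) [Field F] [NumberField F], Module.finrank ℚ F = 2 →
            ∀ s : F, s ^ 2 = -(d : F) → ∃ c : ClassGroup (𝓞 F), orderOf c = g} ⊆
      {x : ℕ | (x : ℝ) ≤ X ∧ ¬ ∀ k : ℕ, Squarefree k → Pool.Agent.Q148.CG.PG g N k K x} := by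
    intro x hx
    refine ⟨hx.1, ?_⟩
    intro h1
    apply hx.2
    intro k hk
    obtain ⟨d, h2, h3, h4, h5, m, b, a, h6, h7, h8, h9, h10⟩ := h1 k hk
    refine ⟨d, h2, h3, h4, h5, ?_⟩
    intro F _ _ hF s hs
    exact Pool.Agent.Q148.CG.exists_order g m b d a hg h4 h6 h7 h8 h9 h10 hF s hs
  exact_mod_cast Set.ncard_le_ncard hsub hfin

end Pool.Agent.Results.MP_0f260b_nt.ElementsOfGivenOrder
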