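import Pool.Agent.Q197.MG.Exi

/-!
# Random finite abelian `p`-groups: the sharp price of a failure of the `H`-moment (helper197)

The `p`-parts of the class groups of `N` imaginary quadratic fields are replaced by `N` random finite abelian `p`-groups
with an arbitrary joint law; `G 0, G 1, …` is an enumeration of the finite abelian `p`-groups up to isomorphism
(`IsEnum p G`), and a random group is a random index.  The reference model `prodN (clG G) N` is: independent groups with
the Cohen-Lenstra law, `P(G i)` proportional to `1 / #Aut (G i)`.  `avg (fun i => nsur (G i) H) x` is the average number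
of surjective homomorphisms onto `H`, which should be one.  Put `u = (log N)² / log #End(H)`.  In the model the
probability that the average is not near one is `exp (-(1 + o(1)) u)`, however large the deviation.  The least relative
entropy of a law for which the average deviates with probability `q` is `(q + o(1)) u`, uniformly in `0 ≤ q ≤ 1`.
-/

set_option autoImplicit false

namespace Pool.Agent.Results.MP_0f260b_nt.PriceForEveryGroup

open MeasureTheory Filter InformationTheory Pool.Agent.Q197.MG

/-- **The sharp price of a failure of the `H`-moment, for every finite abelian `p`-group `H`.** -/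
theorem result (p : ℕ) (hp : p.Prime) (h3 : 3 ≤ p) :
    -- there are enumerations of the finite abelian `p`-groups
    (∃ (G : ℕ → Type) (_ : ∀ i, AddCommGroup (G i)), IsEnum p G) ∧
    ∀ (G : ℕ → Type) [∀ i, AddCommGroup (G i)], IsEnum p G → IsProbabilityMeasure (clG G) ∧
    ∀ (H : Type) [AddCommGroup H], IsP p H → Nat.card H ≠ 1 →
    ∀ ε A η : ℝ, 0 < ε → 0 < η → ∀ᶠ N : ℕ in atTop,
    -- (1) the probability of a deviation in the model
    ((prodN (clG G) N).real {x | ε < |avg (fun i => (nsur (G i) H : ℝ)) x - 1|} ≤
        Real.exp (-((1 - η) * (Real.log N ^ 2 / Real.log (nhom H H)))) ∧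
      Real.exp (-((1 + η) * (Real.log N ^ 2 / Real.log (nhom H H)))) ≤
        (prodN (clG G) N).real {x | A ≤ avg (fun i => (nsur (G i) H : ℝ)) x}) ∧
    -- (2) all laws
    (∀ ρ : Measure (Fin N → ℕ), IsProbabilityMeasure ρ →
      ENNReal.ofReal ((ρ.real {x | ε < |avg (fun i => (nsur (G i) H : ℝ)) x - 1|} - η) *
        (Real.log N ^ 2 / Real.log (nhom H H))) ≤ klDiv ρ (prodN (clG G) N)) ∧
    -- (3) sharp
    ∀ q : ℝ, 0 ≤ q → q ≤ 1 → ∃ ρ : Measure (Fin N → ℕ), IsProbabilityMeasure ρ ∧
      klDiv ρ (prodN (clG G) N) ≤ ENNReal.ofReal ((q + η) * (Real.log N ^ 2 / Real.log (nhom H H))) ∧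
      q ≤ ρ.real {x | A ≤ avg (fun i => (nsur (G i) H : ℝ)) x} := by
  have : Fact p.Prime := ⟨hp⟩
  refine ⟨exists_enum, fun G _ hG => ⟨clG_prob h3 hG, fun H _ hH h1 ε A η hε hη => ?_⟩⟩
  have := clG_prob h3 hG
  exact price (clG_mom h3 hG H hH h1) hε A hη

end Pool.Agent.Results.MP_0f260b_nt.PriceForEveryGroup
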