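import Pool.Agent.Q197.PS.WF
import Pool.Agent.Q197.PS.FD

/-!
# The Cohen-Lenstra law for imaginary quadratic fields in unions of residue classes of the discriminant

The law with the constant `c` says that for every finite abelian `p`-group `H` the share of the imaginary quadratic
fields whose class group has the `p`-part `H` is `c / #Aut H`. We consider the `2 ^ P` unions `A` of residue
classes modulo `P`, and the law for the fields with discriminant `-n`, `n mod P ∈ A`. If the law fails for all fields,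
then it holds for at most `C 2 ^ P / √P` of the unions, for every modulus `P`; and it holds in all residue classes
for all moduli if and only if the number of good unions is not `O(2 ^ P / √P)` along the multiples of any `q`.
-/

set_option autoImplicit false

open Finset Filter Topology

namespace Pool.Agent.Results.MP_0f260b_nt.UnionsOfClasses

/-- `D` is a fundamental discriminant -/
def IsFund (D : ℤ) : Prop :=
  (D % 4 = 1 ∧ D ≠ 1 ∧ Squarefree D) ∨ (∃ m : ℤ, D = 4 * m ∧ (m % 4 = 2 ∨ m % 4 = 3) ∧ Squarefree m)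

/-- `H` is isomorphic to the `p`-primary part of the class group of the imaginary quadratic field of
discriminant `-n` -/
def HasPart (p n : ℕ) (H : Type) [CommGroup H] : Prop :=
  ∃ (K : Type) (_ : Field K) (_ : NumberField K), Module.finrank ℚ K = 2 ∧ NumberField.discr K = -(n : ℤ) ∧
    Nonempty (↥(Subgroup.closure
      {g : ClassGroup (NumberField.RingOfIntegers K) | ∃ m : ℕ, g ^ (p ^ m) = 1}) ≃* H)

open Classical in
/-- the number of the imaginary quadratic fields with discriminant `-n`, `n ≤ N`, `n mod P ∈ A` -/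
noncomputable def fields (P : ℕ) (A : Finset ℕ) (N : ℕ) : ℕ :=
  ((Icc 1 N).filter (fun n : ℕ => IsFund (-(n : ℤ)) ∧ n % P ∈ A)).card

open Classical in
/-- the number of those among them whose class group has the `p`-part `H` -/
noncomputable def withPart (p : ℕ) (H : Type) [CommGroup H] (P : ℕ) (A : Finset ℕ) (N : ℕ) : ℕ :=
  ((Icc 1 N).filter (fun n : ℕ => (IsFund (-(n : ℤ)) ∧ n % P ∈ A) ∧ HasPart p n H)).card

/-- the law with the constant `c` in the union `A` of residue classes modulo `P` -/
def Law (p : ℕ) (c : ℝ) (P : ℕ) (A : Finset ℕ) : Prop :=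
  ∀ (H : Type) [CommGroup H] [Finite H], IsPGroup p H →
    Tendsto (fun N : ℕ => ((withPart p H P A N : ℝ) - c / (Nat.card (H ≃* H) : ℝ) * fields P A N) /
      fields 1 {0} N) atTop (𝓝 0)

open Classical in
/-- the number of the unions of residue classes modulo `P` in which the law holds -/
noncomputable def nLaw (p : ℕ) (c : ℝ) (P : ℕ) : ℕ :=
  ((range P).powerset.filter (fun A => Law p c P A)).card

/-- finite abelian `p`-groups -/
structure Grp (p : ℕ) : Type 1 where
  H : Type
  i1 : CommGroup H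
  i2 : Finite H
  hp : IsPGroup p H

/-- `#Aut H` -/
noncomputable def aut {p : ℕ} (h : Grp p) : ℕ := by
  have := h.i1
  exact Nat.card (h.H ≃* h.H)

/-- the property of the class group -/
def part {p : ℕ} (h : Grp p) (n : ℕ) : Prop := by
  have := h.i1
  exact HasPart p n h.H

open Classical in
/-- the function -/
noncomputable def uu (p : ℕ) (c : ℝ) (h : Grp p) (n : ℕ) : ℝ :=
  if IsFund (-(n : ℤ)) then ((if part h n then 1 else 0) - c / (aut h : ℝ)) / (1 + c) else 0

lemma aut_pos {p : ℕ} (h : Grp p) : 0 < aut h := by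
  have := h.i1
  have := h.i2
  unfold aut
  have : Finite (h.H ≃* h.H) := Finite.of_injective (fun e : h.H ≃* h.H => (e : h.H → h.H))
    (fun a b hab => MulEquiv.ext (congrFun hab))
  exact Nat.card_pos

lemma uu_le (p : ℕ) {c : ℝ} (hc : 0 < c) (h : Grp p) (n : ℕ) : |uu p c h n| ≤ 1 := by
  have h1 : (1 : ℝ) ≤ aut h := by exact_mod_cast aut_pos h
  have h2 : 0 < c / (aut h : ℝ) := by positivity
  have h3 : c / (aut h : ℝ) ≤ c := div_le_self hc.le h1
  unfold uu
  split_ifs
  · rw [abs_le, le_div_iff₀ (by linarith), div_le_iff₀ (by linarith)]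
    constructor <;> linarith
  · rw [abs_le, le_div_iff₀ (by linarith), div_le_iff₀ (by linarith)]
    constructor <;> linarith
  · simp

lemma fields_le (N : ℕ) : (fields 1 {0} N : ℝ) ≤ N := by
  classical
  unfold fields
  have h1 := card_filter_le (Icc 1 N) (fun n : ℕ => IsFund (-(n : ℤ)) ∧ n % 1 ∈ ({0} : Finset ℕ))
  rw [Nat.card_Icc, Nat.add_sub_cancel] at h1
  exact_mod_cast h1

lemma fields_ge : ∀ᶠ N : ℕ in atTop, 0 < (fields 1 {0} N : ℝ) ∧ (N : ℝ) ≤ 16 * fields 1 {0} N := by
  classical
  have h1 : ∀ᶠ N : ℕ in atTop, (32 : ℝ) ≤ √N :=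
    ((Real.tendsto_sqrt_atTop).comp (tendsto_natCast_atTop_atTop (R := ℝ))).eventually_ge_atTop 32
  filter_upwards [h1] with N h2
  have h3 : √(N : ℝ) * √N = N := Real.mul_self_sqrt (Nat.cast_nonneg _)
  have h4 := Q197.PS.count_sqf 3 (Or.inr rfl) N
  have h5 : ((range N).filter (fun n => n % 4 = 3 ∧ Squarefree n)).card ≤ fields 1 {0} N := by
    unfold fields
    refine card_le_card fun n hn => ?_
    rw [mem_filter, mem_range] at hn
    rw [mem_filter, mem_Icc]
    refine ⟨by omega, ⟨Or.inl ⟨by omega, by omega, ?_⟩, by rw [Nat.mod_one, mem_singleton]⟩⟩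
    exact (Int.squarefree_natAbs.1 (by rw [Int.natAbs_neg, Int.natAbs_natCast]; exact hn.2.2))
  have h6 : (((range N).filter (fun n => n % 4 = 3 ∧ Squarefree n)).card : ℝ) ≤ fields 1 {0} N := by
    exact_mod_cast h5
  constructor
  · nlinarith
  · nlinarith

open Classical in
lemma sum_uu (p : ℕ) (c : ℝ) (h : Grp p) (P : ℕ) (A : Finset ℕ) (N : ℕ) :
    Q197.PS.mU (uu p c h) P A N =
      ((((Icc 1 N).filter (fun n : ℕ => (IsFund (-(n : ℤ)) ∧ n % P ∈ A) ∧ part h n)).card : ℝ) -
        c / (aut h : ℝ) * fields P A N) / (1 + c) / N := by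
  classical
  unfold Q197.PS.mU
  congr 1
  unfold uu
  rw [← sum_filter, filter_filter, ← sum_div]
  congr 1
  have e : (Icc 1 N).filter (fun n : ℕ => n % P ∈ A ∧ IsFund (-(n : ℤ))) =
      (Icc 1 N).filter (fun n : ℕ => IsFund (-(n : ℤ)) ∧ n % P ∈ A) := by
    ext n
    rw [mem_filter, mem_filter, and_comm (a := n % P ∈ A)]
  rw [e, sum_sub_distrib, ← sum_filter, filter_filter, sum_const, sum_const, nsmul_eq_mul, nsmul_eq_mul,
    mul_one, mul_comm (c / (aut h : ℝ))]
  unfold fields
  rfl

lemma conv_aux (x : ℕ → ℝ) {k : ℝ} (hk : 0 < k) :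
    Tendsto (fun N : ℕ => x N / k / N) atTop (𝓝 0) ↔
      Tendsto (fun N : ℕ => x N / fields 1 {0} N) atTop (𝓝 0) := by
  constructor
  · intro h
    have h1 := (h.norm).const_mul (16 * k)
    rw [norm_zero, mul_zero] at h1
    refine squeeze_zero_norm' ?_ h1
    filter_upwards [fields_ge, eventually_gt_atTop 0] with N h2 h3
    have hN : (0 : ℝ) < N := by exact_mod_cast h3
    rw [norm_div, norm_div, norm_div, Real.norm_of_nonneg h2.1.le, Real.norm_of_nonneg hN.le,
      Real.norm_of_nonneg hk.le]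
    rw [div_le_iff₀ h2.1]
    have h4 : 16 * k * (‖x N‖ / k / N) * fields 1 {0} N = ‖x N‖ * (16 * fields 1 {0} N / N) := by
      field_simp
    rw [h4]
    have h5 : 1 ≤ 16 * (fields 1 {0} N : ℝ) / N := by
      rw [le_div_iff₀ hN]
      linarith [h2.2]
    nlinarith [norm_nonneg (x N)]
  · intro h
    have h1 := (h.norm).const_mul (1 / k)
    rw [norm_zero, mul_zero] at h1
    refine squeeze_zero_norm' ?_ h1
    filter_upwards [fields_ge, eventually_gt_atTop 0] with N h2 h3
    have hN : (0 : ℝ) < N := by exact_mod_cast h3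
    have hF := fields_le N
    rw [norm_div, norm_div, norm_div, Real.norm_of_nonneg h2.1.le, Real.norm_of_nonneg hN.le,
      Real.norm_of_nonneg hk.le]
    calc ‖x N‖ / k / N ≤ ‖x N‖ / k / fields 1 {0} N := by
          refine div_le_div_of_nonneg_left (by positivity) h2.1 hF
      _ = _ := by ring

lemma law_iff (p : ℕ) {c : ℝ} (hc : 0 < c) (P : ℕ) (A : Finset ℕ) :
    Law p c P A ↔ Q197.PS.GoodU (uu p c) P A := by
  constructor
  · intro h g
    have h1 := @h g.H g.i1 g.i2 g.hp
    rw [← conv_aux _ (show (0 : ℝ) < 1 + c by linarith)] at h1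
    refine h1.congr fun N => ?_
    rw [sum_uu]
    rfl
  · intro h H i1 i2 hp
    have h1 := h ⟨H, i1, i2, hp⟩
    rw [← conv_aux _ (show (0 : ℝ) < 1 + c by linarith)]
    refine h1.congr fun N => ?_
    rw [sum_uu]
    rfl

lemma nLaw_eq (p : ℕ) {c : ℝ} (hc : 0 < c) (P : ℕ) : nLaw p c P = Q197.PS.nGU (uu p c) P := by
  classical
  unfold nLaw Q197.PS.nGU
  congr 1
  ext A
  rw [mem_filter, mem_filter, law_iff p hc]

/-- **The Cohen-Lenstra law in unions of residue classes.** Let `p` be a natural number and `c > 0`. (0) `Law p c 1 {0}`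
is the law for all imaginary quadratic fields. (1) If it fails, then there is `C` such that for every `P ≥ 1` the law
holds for at most `C 2 ^ P / √P` of the `2 ^ P` unions of residue classes modulo `P`. (2) The law holds in all residue
classes for all moduli if and only if for all `q` and `K` there is a multiple `P` of `q` such that it holds for at least
`K 2 ^ P / √P` of the unions of residue classes modulo `P`. -/
theorem result (p : ℕ) (c : ℝ) (hc : 0 < c) :
    (Law p c 1 {0} ↔ ∀ (H : Type) [CommGroup H] [Finite H], IsPGroup p H →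
      Tendsto (fun N : ℕ => (withPart p H 1 {0} N : ℝ) / fields 1 {0} N) atTop
        (𝓝 (c / (Nat.card (H ≃* H) : ℝ)))) ∧
    (¬ Law p c 1 {0} → ∃ C : ℝ, 0 < C ∧ ∀ P : ℕ, 0 < P → (nLaw p c P : ℝ) ≤ C * 2 ^ P / √P) ∧
    ((∀ q : ℕ, 0 < q → ∀ a < q, Law p c q {a}) ↔
      ∀ q : ℕ, 0 < q → ∀ K : ℝ, ∃ P : ℕ, 0 < P ∧ q ∣ P ∧ K * 2 ^ P / √P ≤ nLaw p c P) := by
  refine ⟨?_, ?_, ?_⟩
  · unfold Law
    have key : ∀ (b : ℝ) (x : ℕ → ℝ), Tendsto (fun N : ℕ => (x N - b * fields 1 {0} N) /
        fields 1 {0} N) atTop (𝓝 0) ↔ Tendsto (fun N : ℕ => x N / fields 1 {0} N) atTop (𝓝 b) := by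
      intro b x
      have e : ∀ᶠ N : ℕ in atTop, (x N - b * fields 1 {0} N) / (fields 1 {0} N : ℝ) =
          x N / fields 1 {0} N - b := by
        filter_upwards [fields_ge] with N h1
        rw [sub_div, mul_div_assoc, div_self h1.1.ne', mul_one]
      rw [tendsto_congr' e]
      exact tendsto_sub_nhds_zero_iff
    constructor
    · intro h H i1 i2 hp
      exact (key _ _).1 (@h H i1 i2 hp)
    · intro h H i1 i2 hp
      exact (key _ _).2 (@h H i1 i2 hp)
  · intro h
    rw [law_iff p hc] at h
    unfold Q197.PS.GoodU at h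
    push Not at h
    obtain ⟨g, hg⟩ := h
    obtain ⟨C, hC, h1⟩ := Q197.PS.nGU_few (uu p c) (fun s n => uu_le p hc s n) g hg
    refine ⟨C, hC, fun P hP => ?_⟩
    rw [nLaw_eq p hc]
    exact h1 P hP
  · have h1 := Q197.PS.gu_iff (uu p c) (fun s n => uu_le p hc s n)
    simp only [law_iff p hc, nLaw_eq p hc]
    exact h1

end Pool.Agent.Results.MP_0f260b_nt.UnionsOfClasses
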